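import Pool.Agent.W823.QT.Stm

set_option autoImplicit false

namespace Pool.Agent.W236.QTSPL

open Pool.Agent.W823.QT

theorem main : SPL_T := by
  intro w m i him
  classical
  have himg : ∏ e ∈ arcs (m - i), (1 + w (e.1 + i, e.2 + i)) =
      ∏ e ∈ (arcs (m - i)).image (fun e => (e.1 + i, e.2 + i)), (1 + w e) := by
    rw [Finset.prod_image]
    intro a _ b _ h
    simp only [Prod.mk.injEq] at h
    ext <;> omega
  rw [himg]
  have h1 : Disjoint (arcs i) ((arcs (m - i)).image (fun e => (e.1 + i, e.2 + i))) := by
    rw [Finset.disjoint_left]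
    rintro ⟨a, b⟩ h h'
    simp only [arcs, Finset.mem_image, Finset.mem_filter, Finset.mem_product, Finset.mem_range,
      Prod.mk.injEq, Prod.exists] at h h'
    obtain ⟨c, d, hcd, hc, hd⟩ := h'
    omega
  have h2 : Disjoint ((arcs i) ∪ ((arcs (m - i)).image (fun e => (e.1 + i, e.2 + i))))
      ((arcs m).filter (fun e => e.1 < i ∧ i < e.2)) := by
    rw [Finset.disjoint_left]
    rintro ⟨a, b⟩ h h'
    simp only [arcs, Finset.mem_union, Finset.mem_image, Finset.mem_filter, Finset.mem_product,
      Finset.mem_range, Prod.mk.injEq, Prod.exists] at h h'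
    rcases h with h | ⟨c, d, hcd, hc, hd⟩ <;> omega
  rw [← Finset.prod_union h1, ← Finset.prod_union h2]
  apply Finset.prod_congr _ (fun _ _ => rfl)
  ext ⟨a, b⟩
  simp only [arcs, Finset.mem_union, Finset.mem_image, Finset.mem_filter, Finset.mem_product,
    Finset.mem_range, Prod.mk.injEq, Prod.exists]
  constructor
  · intro h
    by_cases hb : b ≤ i
    · left; left; omega
    · by_cases ha : i ≤ a
      · left; right
        exact ⟨a - i, b - i, by omega, by omega, by omega⟩
      · right; omega
  · rintro ((h | ⟨c, d, hcd, hc, hd⟩) | h) <;> omega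

end Pool.Agent.W236.QTSPL
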