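import Pool.Agent.W886.LS.Stm0
import Pool.Agent.H620R2.GaugeR.Seq

/-!
# `NP ⊆ NE`
-/

set_option autoImplicit false

namespace Pool.Agent.W236.LSNPNE

open Pool.Agent.NPC Pool.Agent.H620R2.Gauge Pool.Agent.H622R2.Exp

/-- polynomials are below simple exponentials -/
theorem poly_le (p : Polynomial ℕ) : ∃ c : ℕ, ∀ n : ℕ, p.eval n ≤ 2 ^ (c * (n + 1)) := by
  induction p using Polynomial.induction_on' with
  | add p q hp hq =>
    obtain ⟨c, hc⟩ := hp
    obtain ⟨d, hd⟩ := hq
    refine ⟨c + d + 1, fun n => ?_⟩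
    rw [Polynomial.eval_add]
    have h1 : 2 ^ (c * (n + 1)) ≤ 2 ^ ((c + d) * (n + 1)) :=
      Nat.pow_le_pow_right (by norm_num) (Nat.mul_le_mul_right _ (Nat.le_add_right _ _))
    have h2 : 2 ^ (d * (n + 1)) ≤ 2 ^ ((c + d) * (n + 1)) :=
      Nat.pow_le_pow_right (by norm_num) (Nat.mul_le_mul_right _ (Nat.le_add_left _ _))
    have h3 : 2 ^ ((c + d) * (n + 1)) * 2 ≤ 2 ^ ((c + d + 1) * (n + 1)) := by
      rw [← pow_succ]
      exact Nat.pow_le_pow_right (by norm_num) (by nlinarith)
    have := hc n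
    have := hd n
    omega
  | monomial k a =>
    refine ⟨a + k, fun n => ?_⟩
    rw [Polynomial.eval_monomial]
    have h1 : a ≤ 2 ^ (a * (n + 1)) :=
      (Nat.lt_two_pow_self (n := a)).le.trans (Nat.pow_le_pow_right (by norm_num)
        (Nat.le_mul_of_pos_right _ (Nat.succ_pos _)))
    have h2 : n ^ k ≤ 2 ^ (k * (n + 1)) := by
      rw [mul_comm, pow_mul]
      exact Nat.pow_le_pow_left ((Nat.lt_two_pow_self (n := n)).le.trans
        (Nat.pow_le_pow_right (by norm_num) (Nat.le_succ _))) k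
    rw [add_mul, pow_add]
    exact Nat.mul_le_mul h1 h2

/-- post-processing -/
theorem isFP_post {A : Oracle} {V : List Bool → List Bool} (hV : IsFP A V)
    {ψ : List Bool × List Bool → List Bool} (hψ : Poly ψ) : IsFP A (fun y => ψ (y, V y)) :=
  IsFP.seq (φ := fun _ => []) (ψ := fun p => ψ (p.1, p.2.1)) hV
    (IsFP.of_poly (NPC.Poly.const [])) (NPC.Poly.const [])
    (hψ.comp (NPC.Poly.pair (Poly.fst Poly.id) (Poly.fst (Poly.snd Poly.id))))

theorem task : Pool.Agent.W886.LS.S_NPNE := by
  intro A L h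
  obtain ⟨V, p, hV, hL⟩ := h
  obtain ⟨c, hc⟩ := poly_le p
  have hw : Poly (fun y : List Bool => (unpair y).1) := Poly.fst poly_unpair
  have hx : Poly (fun y : List Bool => (unpair y).2) := Poly.snd poly_unpair
  set ψ : List Bool × List Bool → List Bool := fun r =>
    if (unpair r.1).1.length ≤ p.eval (unpair r.1).2.length then r.2 else [] with hψ
  have hψp : Poly ψ := by
    rw [hψ]
    have hx' : Poly (fun r : List Bool × List Bool => (unpair r.1).2) :=
      hx.comp (Poly.fst Poly.id)
    have hw' : Poly (fun r : List Bool × List Bool => (unpair r.1).1) :=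
      hw.comp (Poly.fst Poly.id)
    have hF' : Poly (fun r : List Bool × List Bool => p.eval (unpair r.1).2.length) :=
      (UPoly.eval (UPoly.length hx') p).toPoly
    have hc : Poly (fun r : List Bool × List Bool =>
        decide ((unpair r.1).1.length ≤ p.eval (unpair r.1).2.length)) :=
      Poly.decide_le (Poly.length hw') hF'
    exact Poly.ite hc (Poly.snd Poly.id) (NPC.Poly.const [])
  refine ⟨fun y => ψ (y, V y), isFP_post hV hψp, Polynomial.C c * (Polynomial.X + 1), ⟨c, rfl⟩,
    fun x => (hL x).trans ?_⟩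
  have he : (Polynomial.C c * (Polynomial.X + 1)).eval x.length = c * (x.length + 1) := by
    simp
  rw [he]
  constructor
  · rintro ⟨w, hw, hwV⟩
    refine ⟨w, hw.trans (hc _), ?_⟩
    rw [hψ]
    simp only [unpair_pairBits]
    rw [if_pos hw, hwV]
  · rintro ⟨w, _, hwV⟩
    rw [hψ] at hwV
    simp only [unpair_pairBits] at hwV
    by_cases h : w.length ≤ p.eval x.length
    · rw [if_pos h] at hwV
      exact ⟨w, h, hwV⟩
    · rw [if_neg h] at hwV
      simp at hwV

end Pool.Agent.W236.LSNPNE
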